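import Pool.Agent.J6H84.TS.Stm
import Pool.Agent.Y347.VL.ZM

/-!
# Module EX of project TS: linear variational sets modulo `p` are transitive
-/

set_option autoImplicit false

namespace Pool.Agent.J6H75.TS.Ex

theorem main : Pool.Agent.J6H84.TS.S_Ex := by
  intro p _ m hp2 hm3 hmp
  have hp : p.Prime := Fact.out
  have h := (Pool.Agent.Y347.VL.isGreatest_zmod (m := m) (n := p) (by omega) hp.two_le).1
  rw [if_neg (by omega), hp.minFac_eq, if_neg hp2, max_eq_right (by omega)] at h
  obtain ⟨C, hC, τ, σ, a, hl⟩ := h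
  refine ⟨C, hC, ?_⟩
  intro x y
  let t : Fin m → ZMod p := fun i => τ i (y i) - τ i (x i)
  let s : Equiv.Perm (Fin m → Fin p) :=
    Equiv.piCongrRight (fun i => (τ i).trans ((Equiv.addRight (t i)).trans (τ i).symm))
  have hs : ∀ z i, s z i = (τ i).symm (τ i (z i) + t i) := fun z i => rfl
  refine ⟨s, ?_, ?_⟩
  · intro j
    refine ⟨(σ j).trans ((Equiv.addRight (∑ i, a j i * t i)).trans (σ j).symm), fun z => ?_⟩
    show C ((1 : Equiv.Perm (Fin (p + 1))) j) (s z) = (σ j).symm (σ j (C j z) + ∑ i, a j i * t i)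
    rw [Equiv.Perm.one_apply, Equiv.eq_symm_apply, hl, hl, ← Finset.sum_add_distrib]
    refine Finset.sum_congr rfl fun i _ => ?_
    rw [hs, Equiv.apply_symm_apply]
    ring
  · funext i
    rw [hs, Equiv.symm_apply_eq]
    simp only [t]
    ring

end Pool.Agent.J6H75.TS.Ex
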